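import Pool.Agent.Helper15.Final

/-!
# When the prime ideal of a Bayesian network equals its global Markov ideal
-/

namespace Pool.Agent.Results.MP_68dd99_ag.InducedCycles

open Pool.Agent.Helper15

/-- Exact criterion for `P_G = I_global(G)` when the non-sinks induce a perfect network, and a
network with `P_G = I_global(G)` having an induced four-cycle. -/
theorem result :
    (∀ (n : ℕ) (E : Fin n → Fin n → Prop) (κ : Fin n → ℕ), 0 < n →
      (∀ i, ¬ Relation.TransGen E i i) → (∀ i, 2 ≤ κ i) →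
      (∀ i, ¬ IsSink E i → ∀ a b, E a i → E b i → a ≠ b → E a b ∨ E b a) →
      (primeIdeal E κ = globalIdeal E κ ↔
        ∀ (k : ℕ) (f : SimpleGraph.cycleGraph k ↪g SimpleGraph.fromRel E), 3 < k →
          k = 4 ∧ ∃ i j : Fin k, i ≠ j ∧ IsSink E (f i) ∧ IsSink E (f j))) ∧
    (∃ E : Fin 4 → Fin 4 → Prop, (∀ i, ¬ Relation.TransGen E i i) ∧
      (∀ i, ¬ IsSink E i → ∀ a b, E a i → E b i → a ≠ b → E a b ∨ E b a) ∧
      primeIdeal E (fun _ => 2) = globalIdeal E (fun _ => 2) ∧
      Nonempty (SimpleGraph.cycleGraph 4 ↪g SimpleGraph.fromRel E)) :=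
  ⟨fun _ E κ hn hacyc hκ hperf => main_iff hn E hacyc κ hκ hperf, example_K22⟩

end Pool.Agent.Results.MP_68dd99_ag.InducedCycles
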